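import Pool.Agent.GLT.Par

/-!
# The tree of `PGL_2` over a discretely valued field
-/

set_option autoImplicit false

namespace Pool.Agent.GLT

open Matrix WithZero
open scoped WithZero

section

variable {L : Type} [Field L] (v : Valuation L ℤᵐ⁰)

/-- The stabiliser of the base vertex: scalars times the integral invertible matrices. -/
def HG : Subgroup (GL (Fin 2) L) where
  carrier := {g | ∃ z : L, z ≠ 0 ∧ (∀ i j, v (z * g.1 i j) ≤ 1) ∧ v (z ^ 2 * g.1.det) = 1}
  mul_mem' := by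
    rintro a b ⟨z, hz, h1, h2⟩ ⟨w, hw, k1, k2⟩
    refine ⟨z * w, mul_ne_zero hz hw, fun i j => ?_, ?_⟩
    · have h3 : z * w * (a * b).1 i j
          = (z * a.1 i 0) * (w * b.1 0 j) + (z * a.1 i 1) * (w * b.1 1 j) := by
        rw [Units.val_mul, Matrix.mul_apply, Fin.sum_univ_two]
        ring
      rw [h3]
      refine (v.map_add _ _).trans (max_le ?_ ?_)
      · rw [map_mul v]
        exact mul_le_one' (h1 _ _) (k1 _ _)
      · rw [map_mul v]
        exact mul_le_one' (h1 _ _) (k1 _ _)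
    · have h3 : (z * w) ^ 2 * (a * b).1.det = (z ^ 2 * a.1.det) * (w ^ 2 * b.1.det) := by
        rw [Units.val_mul, Matrix.det_mul]
        ring
      rw [h3, map_mul v, h2, k2, one_mul]
  one_mem' := by
    refine ⟨1, one_ne_zero, fun i j => ?_, ?_⟩
    · rw [one_mul, Units.val_one, Matrix.one_apply]
      split_ifs
      · rw [map_one v]
      · rw [map_zero v]
        exact zero_le_one
    · rw [Units.val_one, Matrix.det_one, one_pow, one_mul, map_one v]
  inv_mem' := by
    rintro a ⟨z, hz, h1, h2⟩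
    have hd : a.1.det ≠ 0 := by
      intro h
      rw [h, mul_zero, map_zero v] at h2
      exact zero_ne_one h2
    have h4 : (z ^ 2 * a.1.det) ≠ 0 := mul_ne_zero (pow_ne_zero 2 hz) hd
    have h5 : (a⁻¹).1 = a.1⁻¹ := Matrix.coe_units_inv a
    have h6 : ∀ i j, ∃ k l, v (z⁻¹ * (a⁻¹).1 i j) = v (z * a.1 k l) := by
      have h7 : ∀ x : L, v (z⁻¹ * (a.1.det⁻¹ * x)) = v (z * x) := by
        intro x
        have h8 : z⁻¹ * (a.1.det⁻¹ * x) = (z ^ 2 * a.1.det)⁻¹ * (z * x) := by
          field_simp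
        rw [h8, map_mul v, map_inv₀ v, h2, inv_one, one_mul]
      intro i j
      rw [h5, Matrix.inv_def, Ring.inverse_eq_inv', Matrix.smul_apply, smul_eq_mul, h7,
        Matrix.adjugate_fin_two]
      fin_cases i <;> fin_cases j
      · exact ⟨1, 1, rfl⟩
      · refine ⟨0, 1, ?_⟩
        simp
      · refine ⟨1, 0, ?_⟩
        simp
      · exact ⟨0, 0, rfl⟩
    refine ⟨z⁻¹, inv_ne_zero hz, fun i j => ?_, ?_⟩
    · obtain ⟨k, l, h7⟩ := h6 i j
      rw [h7]
      exact h1 k l
    · have h8 : z⁻¹ ^ 2 * (a⁻¹).1.det = (z ^ 2 * a.1.det)⁻¹ := by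
        rw [h5, Matrix.det_nonsing_inv, Ring.inverse_eq_inv']
        field_simp
      rw [h8, map_inv₀ v, h2, inv_one]

variable {v}

theorem mem_HG {g : GL (Fin 2) L} : g ∈ HG v ↔
    ∃ z : L, z ≠ 0 ∧ (∀ i j, v (z * g.1 i j) ≤ 1) ∧ v (z ^ 2 * g.1.det) = 1 := Iff.rfl

theorem scalar_mem_HG (u : Lˣ) : GeneralLinearGroup.scalar (Fin 2) u ∈ HG v := by
  refine ⟨(u : L)⁻¹, inv_ne_zero u.ne_zero, fun i j => ?_, ?_⟩
  · rw [GeneralLinearGroup.coe_scalar, Matrix.scalar_apply, Matrix.diagonal_apply]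
    split_ifs
    · rw [inv_mul_cancel₀ u.ne_zero, map_one v]
    · rw [mul_zero, map_zero v]
      exact zero_le_one
  · have h1 : ((u : L)⁻¹) ^ 2 * (GeneralLinearGroup.scalar (Fin 2) u).1.det = 1 := by
      rw [GeneralLinearGroup.coe_scalar, Matrix.det_fin_two]
      have := u.ne_zero
      rw [Matrix.scalar_apply, Matrix.diagonal_apply_eq, Matrix.diagonal_apply_eq,
        Matrix.diagonal_apply_ne _ (by decide), zero_mul, sub_zero]
      field_simp
    rw [h1, map_one v]

/-- The trace of an element of the stabiliser is small compared with the determinant. -/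
theorem HG_trace {g : GL (Fin 2) L} (hg : g ∈ HG v) :
    v (g.1.trace ^ 2 * g.1.det⁻¹) ≤ 1 := by
  obtain ⟨z, hz, h1, h2⟩ := hg
  have hd : g.1.det ≠ 0 := by
    intro h
    rw [h, mul_zero, map_zero v] at h2
    exact zero_ne_one h2
  have h3 : g.1.trace ^ 2 * g.1.det⁻¹ = (z * g.1.trace) ^ 2 * (z ^ 2 * g.1.det)⁻¹ := by
    field_simp
  rw [h3, map_mul v, map_inv₀ v, h2, inv_one, mul_one, map_pow v]
  refine pow_le_one' ?_ 2
  rw [Matrix.trace_fin_two, mul_add]
  exact (v.map_add _ _).trans (max_le (h1 _ _) (h1 _ _))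

/-- Invertible matrices from their entries. -/
noncomputable def mkG (a b c d : L) (h : a * d - b * c ≠ 0) : GL (Fin 2) L :=
  GeneralLinearGroup.mkOfDetNeZero !![a, b; c, d] (by rw [Matrix.det_fin_two_of]; exact h)

theorem mkG_val (a b c d : L) (h : a * d - b * c ≠ 0) : (mkG a b c d h).1 = !![a, b; c, d] := rfl

theorem mkG_det (a b c d : L) (h : a * d - b * c ≠ 0) : (mkG a b c d h).1.det = a * d - b * c := by
  rw [mkG_val, Matrix.det_fin_two_of]

theorem mkG_mem {a b c d : L} {h : a * d - b * c ≠ 0} (z : L) (hz : z ≠ 0)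
    (ha : v (z * a) ≤ 1) (hb : v (z * b) ≤ 1) (hc : v (z * c) ≤ 1) (hd : v (z * d) ≤ 1)
    (hdet : v (z ^ 2 * (a * d - b * c)) = 1) : mkG a b c d h ∈ HG v := by
  refine ⟨z, hz, fun i j => ?_, ?_⟩
  · rw [mkG_val]
    fin_cases i <;> fin_cases j
    · exact ha
    · exact hb
    · exact hc
    · exact hd
  · rw [mkG_det]
    exact hdet

/-- The matrix with the two rows `π ^ n, a` and `0, 1`. -/
noncomputable def bm (π : L) (hπ : π ≠ 0) (n : ℤ) (a : L) : GL (Fin 2) L :=
  mkG (π ^ n) a 0 1 (by rw [mul_one, mul_zero, sub_zero]; exact zpow_ne_zero n hπ)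

variable (v) in
/-- The vertices. -/
abbrev Vt : Type := GL (Fin 2) L ⧸ HG v

/-- The vertex of a matrix. -/
abbrev vt (g : GL (Fin 2) L) : Vt v := QuotientGroup.mk g

theorem vt_eq {g h k : GL (Fin 2) L} (hk : k ∈ HG v) (h1 : g = h * k) :
    (vt g : Vt v) = vt h := by
  rw [h1]
  exact QuotientGroup.mk_mul_of_mem h hk

theorem vt_eq_iff {g h : GL (Fin 2) L} : (vt g : Vt v) = vt h ↔ ∃ k ∈ HG v, h = g * k := by
  constructor
  · intro h1
    rw [QuotientGroup.eq] at h1
    exact ⟨_, h1, (mul_inv_cancel_left g h).symm⟩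
  · rintro ⟨k, hk, h1⟩
    exact (vt_eq hk h1).symm

variable {π : L} (hπ : v π = exp (-1 : ℤ))

include hπ in
theorem pi_ne : π ≠ 0 := by
  rintro rfl
  rw [map_zero v] at hπ
  exact exp_ne_zero hπ.symm

include hπ in
theorem v_zpow (n : ℤ) : v (π ^ n) = exp (-n) := by
  rw [map_zpow₀ v, hπ, ← WithZero.exp_zsmul, smul_eq_mul]
  congr 1
  ring

/-- The vertex of a ball. -/
noncomputable def bv (n : ℤ) (a : L) : Vt v := vt (bm π (pi_ne hπ) n a)

theorem bv_eq_of {n : ℤ} {a c : L} (h : v (a - c) ≤ exp (-n)) : bv hπ n a = bv hπ n c := by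
  have hp := pi_ne hπ
  have hpn : π ^ n ≠ 0 := zpow_ne_zero n hp
  refine vt_eq (k := mkG 1 (π ^ (-n) * (a - c)) 0 1 (by simp)) ?_ ?_
  · refine mkG_mem 1 one_ne_zero ?_ ?_ ?_ ?_ ?_
    · rw [one_mul, map_one v]
    · rw [one_mul, map_mul v, v_zpow hπ, neg_neg]
      calc exp n * v (a - c) ≤ exp n * exp (-n) := mul_le_mul_right h _
        _ = 1 := by rw [← exp_add, add_neg_cancel, exp_zero]
    · rw [one_mul, map_zero v]
      exact zero_le_one
    · rw [one_mul, map_one v]
    · simp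
  · apply Units.ext
    rw [Units.val_mul, bm, bm, mkG_val, mkG_val, mkG_val, Matrix.mul_fin_two, _root_.zpow_neg]
    ext i j
    fin_cases i <;> fin_cases j
    · simp
    · simp
      field_simp
      ring
    · simp
    · simp

theorem bv_eq_iff {n m : ℤ} {a c : L} :
    bv hπ n a = bv hπ m c ↔ n = m ∧ v (a - c) ≤ exp (-n) := by
  constructor
  · intro h
    have hp := pi_ne hπ
    have hpn : π ^ n ≠ 0 := zpow_ne_zero n hp
    have hpm : π ^ m ≠ 0 := zpow_ne_zero m hp
    obtain ⟨k, ⟨z, hz, h1, h2⟩, h3⟩ := vt_eq_iff.1 h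
    have h4 := congrArg Units.val h3
    rw [Units.val_mul, bm, bm, mkG_val, mkG_val, Matrix.eta_fin_two k.1, Matrix.mul_fin_two] at h4
    have e1 := congrFun (congrFun h4 0) 0
    have e2 := congrFun (congrFun h4 0) 1
    have e3 := congrFun (congrFun h4 1) 0
    have e4 := congrFun (congrFun h4 1) 1
    simp only [Matrix.of_apply, Matrix.cons_val', Matrix.cons_val_zero, Matrix.cons_val_one,
      Matrix.cons_val_fin_one, zero_mul, one_mul, zero_add] at e1 e2 e3 e4
    rw [← e3, mul_zero, add_zero] at e1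
    rw [← e4, mul_one] at e2
    rw [Matrix.det_fin_two, ← e3, ← e4, mul_zero, sub_zero, mul_one] at h2
    have h5 : v z ≤ 1 := by
      have := h1 1 1
      rwa [← e4, mul_one] at this
    have h6 := h1 0 0
    have h7 := h1 0 1
    have h8 : v z * v (z * k.1 0 0) = 1 := by
      rw [← map_mul v, ← h2]
      congr 1
      ring
    have h9 : v z = 1 := by
      refine le_antisymm h5 ?_
      rw [← h8]
      exact mul_le_of_le_one_right' h6
    have h10 : v (k.1 0 0) = 1 := by
      rw [map_mul v, h9, one_mul, one_mul] at h8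
      exact h8
    have h11 : v (π ^ m) = v (π ^ n) := by
      rw [e1, map_mul v, h10, mul_one]
    rw [v_zpow hπ, v_zpow hπ, exp_inj, neg_inj] at h11
    refine ⟨h11.symm, ?_⟩
    rw [map_mul v, h9, one_mul] at h7
    have h12 : a - c = - (π ^ n * k.1 0 1) := by
      rw [e2]
      ring
    rw [h12, v.map_neg, map_mul v, v_zpow hπ]
    exact mul_le_of_le_one_right' h7
  · rintro ⟨rfl, h⟩
    exact bv_eq_of hπ h

end

end Pool.Agent.GLT
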