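import Pool.Agent.GLT.BT

/-!
# The tree of `PGL_2` over a discretely valued field, II
-/

set_option autoImplicit false

namespace Pool.Agent.GLT

open Matrix WithZero
open scoped WithZero

section

variable {L : Type} [Field L] {v : Valuation L ℤᵐ⁰} {π : L} (hπ : v π = exp (-1 : ℤ))

/-- The permutation matrix. -/
noncomputable def wm : GL (Fin 2) L := mkG 0 1 1 0 (by simp)

theorem wm_mem : (wm : GL (Fin 2) L) ∈ HG v := by
  refine mkG_mem 1 one_ne_zero ?_ ?_ ?_ ?_ ?_
  · rw [mul_zero, map_zero v]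
    exact zero_le_one
  · rw [one_mul, map_one v]
  · rw [one_mul, map_one v]
  · rw [mul_zero, map_zero v]
    exact zero_le_one
  · rw [one_pow, one_mul, zero_mul, one_mul, zero_sub, v.map_neg, map_one v]

theorem vt_wm (g : GL (Fin 2) L) : (vt (g * wm) : Vt v) = vt g := vt_eq wm_mem rfl

/-- Iwasawa decomposition, first case. -/
theorem iwasawa1 (g : GL (Fin 2) L) (hg : v (g.1 1 0) ≤ v (g.1 1 1)) :
    ∃ (n : ℤ) (a : L), (vt g : Vt v) = bv hπ n a := by
  have hp := pi_ne hπ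
  have hD : g.1.det ≠ 0 := by
    have := g.det.ne_zero
    rwa [GeneralLinearGroup.val_det_apply] at this
  obtain ⟨p, hp0⟩ : ∃ p, p = g.1 0 0 := ⟨_, rfl⟩
  obtain ⟨q, hq0⟩ : ∃ q, q = g.1 0 1 := ⟨_, rfl⟩
  obtain ⟨r, hr0⟩ : ∃ r, r = g.1 1 0 := ⟨_, rfl⟩
  obtain ⟨s, hs0⟩ : ∃ s, s = g.1 1 1 := ⟨_, rfl⟩
  rw [← hr0, ← hs0] at hg
  rw [Matrix.det_fin_two, ← hp0, ← hq0, ← hr0, ← hs0] at hD
  have hs : s ≠ 0 := by
    rintro rfl
    rw [map_zero v, le_zero_iff, map_eq_zero v] at hg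
    rw [hg] at hD
    simp at hD
  obtain ⟨x, hx⟩ : ∃ x, x = (p * s - q * r) / s ^ 2 := ⟨_, rfl⟩
  have hx0 : x ≠ 0 := by
    rw [hx]
    exact div_ne_zero hD (pow_ne_zero 2 hs)
  have hvx : v x ≠ 0 := (v.ne_zero_iff).2 hx0
  obtain ⟨n, hn⟩ : ∃ n : ℤ, v x = exp (-n) := by
    refine ⟨- log (v x), ?_⟩
    rw [neg_neg, exp_log hvx]
  have hpn : π ^ n ≠ 0 := zpow_ne_zero n hp
  have hu : v (π ^ (-n) * x) = 1 := by
    rw [map_mul v, v_zpow hπ, hn, neg_neg, ← exp_add, add_neg_cancel, exp_zero]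
  have hdet : (π ^ (-n) * (x * s)) * s - 0 * r ≠ 0 := by
    rw [zero_mul, sub_zero]
    exact mul_ne_zero (mul_ne_zero (zpow_ne_zero _ hp) (mul_ne_zero hx0 hs)) hs
  refine ⟨n, q / s, vt_eq (k := mkG (π ^ (-n) * (x * s)) 0 r s hdet) ?_ ?_⟩
  · refine mkG_mem s⁻¹ (inv_ne_zero hs) ?_ ?_ ?_ ?_ ?_
    · have : s⁻¹ * (π ^ (-n) * (x * s)) = π ^ (-n) * x := by
        field_simp
      rw [this, hu]
    · rw [mul_zero, map_zero v]
      exact zero_le_one
    · rw [map_mul v, map_inv₀ v, inv_mul_le_iff₀ (zero_lt_iff.2 ((v.ne_zero_iff).2 hs)), mul_one]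
      exact hg
    · rw [inv_mul_cancel₀ hs, map_one v]
    · have : s⁻¹ ^ 2 * (π ^ (-n) * (x * s) * s - 0 * r) = π ^ (-n) * x := by
        rw [zero_mul, sub_zero]
        field_simp
      rw [this, hu]
  · apply Units.ext
    rw [Units.val_mul, bm, mkG_val, mkG_val, Matrix.mul_fin_two, Matrix.eta_fin_two g.1,
      ← hp0, ← hq0, ← hr0, ← hs0, _root_.zpow_neg]
    ext i j
    fin_cases i <;> fin_cases j
    · simp only [Fin.zero_eta, Fin.isValue, of_apply, cons_val', cons_val_zero, cons_val_fin_one]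
      rw [hx]
      field_simp
      ring
    · simp only [Fin.zero_eta, Fin.isValue, Fin.mk_one, of_apply, cons_val', cons_val_zero,
        cons_val_one, cons_val_fin_one]
      field_simp
      ring
    · simp
    · simp

/-- Iwasawa decomposition. -/
theorem iwasawa (g : GL (Fin 2) L) : ∃ (n : ℤ) (a : L), (vt g : Vt v) = bv hπ n a := by
  rcases le_total (v (g.1 1 0)) (v (g.1 1 1)) with h | h
  · exact iwasawa1 hπ g h
  · rw [← vt_wm g]
    apply iwasawa1 hπ
    have h1 : (g * wm).1 1 0 = g.1 1 1 := by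
      rw [Units.val_mul, wm, mkG_val, Matrix.mul_apply, Fin.sum_univ_two]
      simp
    have h2 : (g * wm).1 1 1 = g.1 1 0 := by
      rw [Units.val_mul, wm, mkG_val, Matrix.mul_apply, Fin.sum_univ_two]
      simp
    rw [h1, h2]
    exact h

theorem iwasawa' (x : Vt v) : ∃ (n : ℤ) (a : L), x = bv hπ n a := by
  obtain ⟨g, rfl⟩ := QuotientGroup.mk_surjective x
  exact iwasawa hπ g

/-- The radius of a vertex. -/
noncomputable def blev (x : Vt v) : ℤ := (iwasawa' hπ x).choose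

/-- A centre of a vertex. -/
noncomputable def bcen (x : Vt v) : L := (iwasawa' hπ x).choose_spec.choose

theorem bv_spec (x : Vt v) : x = bv hπ (blev hπ x) (bcen hπ x) :=
  (iwasawa' hπ x).choose_spec.choose_spec

/-- The parent function. -/
noncomputable def bpar (x : Vt v) : Vt v := bv hπ (blev hπ x - 1) (bcen hπ x)

theorem blev_bv (n : ℤ) (a : L) : blev hπ (bv hπ n a) = n :=
  ((bv_eq_iff hπ).1 (bv_spec hπ (bv hπ n a))).1.symm

theorem bpar_bv (n : ℤ) (a : L) : bpar hπ (bv hπ n a) = bv hπ (n - 1) a := by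
  obtain ⟨h1, h2⟩ := (bv_eq_iff hπ).1 (bv_spec hπ (bv hπ n a))
  rw [bpar, ← h1]
  apply bv_eq_of hπ
  rw [v.map_sub_swap]
  refine h2.trans ?_
  rw [exp_le_exp]
  omega

theorem blev_bpar (x : Vt v) : blev hπ (bpar hπ x) = blev hπ x - 1 := by
  rw [bpar, blev_bv]

theorem bpar_iterate (k : ℕ) (n : ℤ) (a : L) :
    (bpar hπ)^[k] (bv hπ n a) = bv hπ (n - k) a := by
  induction k generalizing n with
  | zero => simp
  | succ k ih =>
    rw [Function.iterate_succ_apply, bpar_bv, ih]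
    congr 1
    push_cast
    ring

theorem bpar_common (x y : Vt v) : ∃ m n : ℕ, (bpar hπ)^[m] x = (bpar hπ)^[n] y := by
  obtain ⟨n, a, rfl⟩ := iwasawa' hπ x
  obtain ⟨m, c, rfl⟩ := iwasawa' hπ y
  obtain ⟨k, hk⟩ : ∃ k : ℤ, v (a - c) ≤ exp (-k) := by
    refine ⟨- log (v (a - c)), ?_⟩
    rw [neg_neg]
    exact le_exp_of_log_le le_rfl
  obtain ⟨N, hN⟩ : ∃ N : ℤ, N = min k (min n m) := ⟨_, rfl⟩
  have h1 : N ≤ k := by omega
  have h2 : N ≤ n := by omega
  have h3 : N ≤ m := by omega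
  refine ⟨(n - N).toNat, (m - N).toNat, ?_⟩
  rw [bpar_iterate, bpar_iterate, Int.toNat_of_nonneg (by omega), Int.toNat_of_nonneg (by omega),
    sub_sub_cancel, sub_sub_cancel]
  apply bv_eq_of hπ
  refine hk.trans ?_
  rw [exp_le_exp]
  omega

/-- The adjacency relation of the tree. -/
def Radj (x y : Vt v) : Prop :=
  ∃ g : GL (Fin 2) L, x = vt g ∧ y = vt (g * bm π (pi_ne hπ) 1 0)

theorem radj_smul (g : GL (Fin 2) L) {x y : Vt v} (h : Radj hπ x y) :
    Radj hπ (g • x) (g • y) := by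
  obtain ⟨k, rfl, rfl⟩ := h
  exact ⟨g * k, rfl, by rw [mul_assoc]; rfl⟩

theorem anti_mem : mkG 0 π π 0 (by
    rw [zero_mul, zero_sub, neg_ne_zero]
    exact mul_ne_zero (pi_ne hπ) (pi_ne hπ)) ∈ HG v := by
  have hp := pi_ne hπ
  refine mkG_mem π⁻¹ (inv_ne_zero hp) ?_ ?_ ?_ ?_ ?_
  · rw [mul_zero, map_zero v]
    exact zero_le_one
  · rw [inv_mul_cancel₀ hp, map_one v]
  · rw [inv_mul_cancel₀ hp, map_one v]
  · rw [mul_zero, map_zero v]
    exact zero_le_one
  · have : π⁻¹ ^ 2 * (0 * 0 - π * π) = -1 := by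
      field_simp
      ring
    rw [this, v.map_neg, map_one v]

theorem radj_symm {x y : Vt v} (h : Radj hπ x y) : Radj hπ y x := by
  obtain ⟨g, rfl, rfl⟩ := h
  refine ⟨g * bm π (pi_ne hπ) 1 0 * wm, (vt_wm _).symm, ?_⟩
  refine (vt_eq (anti_mem hπ) ?_).symm
  rw [mul_assoc, mul_assoc]
  congr 1
  apply Units.ext
  rw [Units.val_mul, Units.val_mul, bm, wm, mkG_val, mkG_val, mkG_val, Matrix.mul_fin_two,
    Matrix.mul_fin_two]
  simp

theorem radj_bpar (x : Vt v) : Radj hπ x (bpar hπ x) := by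
  have hp := pi_ne hπ
  obtain ⟨n, a, rfl⟩ := iwasawa' hπ x
  rw [bpar_bv]
  refine ⟨bm π (pi_ne hπ) n a * wm, (vt_wm _).symm, ?_⟩
  refine (vt_eq (anti_mem hπ) ?_).symm
  apply Units.ext
  rw [Units.val_mul, Units.val_mul, Units.val_mul, bm, bm, bm, wm, mkG_val, mkG_val, mkG_val,
    mkG_val, mkG_val, Matrix.mul_fin_two, Matrix.mul_fin_two, Matrix.mul_fin_two,
    zpow_sub_one₀ hp]
  ext i j
  fin_cases i <;> fin_cases j
  · simp
  · simp
    field_simp
  · simp
  · simp

theorem le_exp_neg_one {x : ℤᵐ⁰} (h : x < 1) : x ≤ exp (-1 : ℤ) := by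
  by_cases hx : x = 0
  · rw [hx]
    exact zero_le
  · rw [← log_le_iff_le_exp hx]
    rw [← exp_zero, ← log_lt_iff_lt_exp hx] at h
    omega

/-- The neighbours of a vertex. -/
theorem radj_cases (n : ℤ) (a : L) (y : Vt v) (h : Radj hπ (bv hπ n a) y) :
    y = bv hπ (n - 1) a ∨ ∃ c : L, v c ≤ 1 ∧ y = bv hπ (n + 1) (a + π ^ n * c) := by
  have hp := pi_ne hπ
  have hpn : π ^ n ≠ 0 := zpow_ne_zero n hp
  have hp1 : v π ≤ 1 := by
    rw [hπ, ← exp_zero, exp_le_exp]
    omega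
  obtain ⟨g, h1, h2⟩ := h
  obtain ⟨k, ⟨z, hz, k1, k2⟩, h3⟩ := vt_eq_iff.1 h1
  obtain ⟨α, hα⟩ : ∃ α, α = k.1 0 0 := ⟨_, rfl⟩
  obtain ⟨β, hβ⟩ : ∃ β, β = k.1 0 1 := ⟨_, rfl⟩
  obtain ⟨γ, hγ⟩ : ∃ γ, γ = k.1 1 0 := ⟨_, rfl⟩
  obtain ⟨δ, hδ⟩ : ∃ δ, δ = k.1 1 1 := ⟨_, rfl⟩
  have hk : k.1 = !![α, β; γ, δ] := by
    rw [Matrix.eta_fin_two k.1, hα, hβ, hγ, hδ]
  have ka := k1 0 0
  have kb := k1 0 1
  have kc := k1 1 0
  have kd := k1 1 1
  rw [← hα] at ka
  rw [← hβ] at kb
  rw [← hγ] at kc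
  rw [← hδ] at kd
  rw [hk, Matrix.det_fin_two_of] at k2
  have hD : α * δ - β * γ ≠ 0 := by
    intro h0
    rw [h0, mul_zero, map_zero v] at k2
    exact zero_ne_one k2
  by_cases hd : v (z * δ) = 1
  · right
    have hδ0 : δ ≠ 0 := by
      rintro rfl
      rw [mul_zero, map_zero v] at hd
      exact zero_ne_one hd
    have hvc : v (β / δ) ≤ 1 := by
      have : β / δ = z * β / (z * δ) := by
        field_simp
      rw [this, map_div₀ v, hd, div_one]
      exact kb
    refine ⟨β / δ, hvc, ?_⟩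
    rw [h2, h3]
    have hdet : (α - β / δ * γ) * δ - 0 * (γ * π) ≠ 0 := by
      have : (α - β / δ * γ) * δ - 0 * (γ * π) = α * δ - β * γ := by
        field_simp
        ring
      rw [this]
      exact hD
    refine vt_eq (k := mkG (α - β / δ * γ) 0 (γ * π) δ hdet) ?_ ?_
    · refine mkG_mem z hz ?_ ?_ ?_ ?_ ?_
      · have : z * (α - β / δ * γ) = z * α - (β / δ) * (z * γ) := by ring
        rw [this]
        refine (v.map_sub _ _).trans (max_le ka ?_)
        rw [map_mul v]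
        exact mul_le_one' hvc kc
      · rw [mul_zero, map_zero v]
        exact zero_le_one
      · rw [← mul_assoc, map_mul v]
        exact mul_le_one' kc hp1
      · exact kd
      · rw [← k2]
        congr 1
        field_simp
        ring
    · apply Units.ext
      rw [Units.val_mul, Units.val_mul, Units.val_mul, hk, bm, bm, bm, mkG_val, mkG_val, mkG_val,
        mkG_val, Matrix.mul_fin_two, Matrix.mul_fin_two, Matrix.mul_fin_two, zpow_add_one₀ hp]
      ext i j
      fin_cases i <;> fin_cases j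
      · simp
        field_simp
        ring
      · simp
        field_simp
        ring
      · simp
      · simp
  · left
    have hd1 : v (z * δ) ≤ exp (-1 : ℤ) := le_exp_neg_one (lt_of_le_of_ne kd hd)
    rw [h2, h3]
    have hdet : (α * π ^ 2) * δ - (β * π) * (γ * π) ≠ 0 := by
      have : (α * π ^ 2) * δ - (β * π) * (γ * π) = π ^ 2 * (α * δ - β * γ) := by ring
      rw [this]
      exact mul_ne_zero (pow_ne_zero 2 hp) hD
    refine vt_eq (k := mkG (α * π ^ 2) (β * π) (γ * π) δ hdet) ?_ ?_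
    · refine mkG_mem (z / π) (div_ne_zero hz hp) ?_ ?_ ?_ ?_ ?_
      · have : z / π * (α * π ^ 2) = (z * α) * π := by
          field_simp
        rw [this, map_mul v]
        exact mul_le_one' ka hp1
      · have : z / π * (β * π) = z * β := by
          field_simp
        rw [this]
        exact kb
      · have : z / π * (γ * π) = z * γ := by
          field_simp
        rw [this]
        exact kc
      · have : z / π * δ = (z * δ) / π := by
          field_simp
        rw [this, map_div₀ v, hπ]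
        exact (div_le_one₀ exp_pos).2 hd1
      · rw [← k2]
        congr 1
        field_simp
    · apply Units.ext
      rw [Units.val_mul, Units.val_mul, Units.val_mul, hk, bm, bm, bm, mkG_val, mkG_val, mkG_val,
        mkG_val, Matrix.mul_fin_two, Matrix.mul_fin_two, Matrix.mul_fin_two, zpow_sub_one₀ hp]
      ext i j
      fin_cases i <;> fin_cases j
      · simp
        field_simp
      · simp
        field_simp
      · simp
      · simp

/-- The adjacency of the tree is invariant. -/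
theorem bpar_adj (x y : Vt v) : (parGraph (bpar hπ)).Adj x y ↔ Radj hπ x y := by
  rw [parGraph_adj _ (blev hπ) (blev_bpar hπ)]
  constructor
  · rintro (rfl | rfl)
    · exact radj_bpar hπ x
    · exact radj_symm hπ (radj_bpar hπ y)
  · intro h
    obtain ⟨n, a, rfl⟩ := iwasawa' hπ x
    rcases radj_cases hπ n a y h with rfl | ⟨c, hc, rfl⟩
    · left
      rw [bpar_bv]
    · right
      rw [bpar_bv, add_sub_cancel_right]
      apply bv_eq_of hπ
      rw [sub_add_cancel_left, v.map_neg, map_mul v, v_zpow hπ]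
      exact mul_le_of_le_one_right' hc

end

end Pool.Agent.GLT
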