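import Mathlib

/-!
# The degree valuation
-/

set_option autoImplicit false

namespace Pool.Agent.GLT

open WithZero
open scoped WithZero

section

variable (k : Type) [Field k] (s : ℕ)

/-- The degree valuation on polynomials. -/
noncomputable def degv : Valuation (MvPolynomial (Fin s) k) ℤᵐ⁰ := by
  classical
  exact
  { toFun := fun f => if f = 0 then 0 else exp (f.totalDegree : ℤ)
    map_zero' := if_pos rfl
    map_one' := by
      rw [if_neg one_ne_zero, MvPolynomial.totalDegree_one]
      rfl
    map_mul' := fun f g => by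
      by_cases hf : f = 0
      · simp [hf]
      · by_cases hg : g = 0
        · simp [hg]
        · rw [if_neg hf, if_neg hg, if_neg (mul_ne_zero hf hg),
            MvPolynomial.totalDegree_mul_of_isDomain hf hg, Nat.cast_add, exp_add]
    map_add_le_max' := fun f g => by
      by_cases hf : f = 0
      · simp [hf]
      · by_cases hg : g = 0
        · simp [hg]
        · by_cases hfg : f + g = 0
          · rw [if_pos hfg]
            exact zero_le
          · rw [if_neg hf, if_neg hg, if_neg hfg, le_max_iff, exp_le_exp, exp_le_exp]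
            have h1 := MvPolynomial.totalDegree_add f g
            rw [le_max_iff] at h1
            exact_mod_cast h1 }

theorem degv_of_ne {f : MvPolynomial (Fin s) k} (hf : f ≠ 0) :
    degv k s f = exp (f.totalDegree : ℤ) := if_neg hf

theorem degv_le_one {f : MvPolynomial (Fin s) k} (hf : degv k s f ≤ 1) :
    ∃ c : k, f = MvPolynomial.C c := by
  by_cases h : f = 0
  · exact ⟨0, by rw [h, map_zero]⟩
  · rw [degv_of_ne k s h, ← exp_zero, exp_le_exp] at hf
    have h1 : f.totalDegree = 0 := by omega
    exact ⟨_, MvPolynomial.totalDegree_eq_zero_iff_eq_C.1 h1⟩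

theorem degv_supp : nonZeroDivisors (MvPolynomial (Fin s) k) ≤ (degv k s).supp.primeCompl := by
  intro f hf
  have h1 : f ≠ 0 := nonZeroDivisors.ne_zero hf
  change f ∉ (degv k s).supp
  rw [Valuation.mem_supp_iff, degv_of_ne k s h1]
  exact exp_ne_zero

variable (L : Type) [Field L] [Algebra (MvPolynomial (Fin s) k) L]
  [IsFractionRing (MvPolynomial (Fin s) k) L]

/-- The degree valuation on rational functions. -/
noncomputable def degL : Valuation L ℤᵐ⁰ :=
  (degv k s).extendToLocalization (degv_supp k s) L

theorem degL_algebraMap (f : MvPolynomial (Fin s) k) :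
    degL k s L (algebraMap _ L f) = degv k s f :=
  Valuation.extendToLocalization_apply_map_apply _ _ _ _

theorem degL_unif (hs : 0 < s) : ∃ π : L, degL k s L π = exp (-1 : ℤ) := by
  refine ⟨(algebraMap (MvPolynomial (Fin s) k) L (MvPolynomial.X (⟨0, hs⟩ : Fin s)))⁻¹, ?_⟩
  rw [map_inv₀ (degL k s L), degL_algebraMap, degv_of_ne k s (MvPolynomial.X_ne_zero _),
    MvPolynomial.totalDegree_X, exp_neg]
  rfl

/-- Elements which are integral over the polynomials and over the ring of the degree valuation are
integral over the constants. -/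
theorem isIntegral_of_deg (F : Type) [Field F] [Algebra L F] [Algebra (MvPolynomial (Fin s) k) F]
    [IsScalarTower (MvPolynomial (Fin s) k) L F] [Algebra k F]
    [IsScalarTower k (MvPolynomial (Fin s) k) F] (y : F)
    (h1 : IsIntegral (MvPolynomial (Fin s) k) y)
    (h2 : IsIntegral (degL k s L).valuationSubring y) : IsIntegral k y := by
  obtain ⟨P, hP⟩ : ∃ P, P = minpoly (MvPolynomial (Fin s) k) y := ⟨_, rfl⟩
  have e1 := minpoly.isIntegrallyClosed_eq_field_fractions' L h1
  have e2 := minpoly.isIntegrallyClosed_eq_field_fractions' L h2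
  rw [← hP] at e1
  have e3 : P ∈ Polynomial.lifts (MvPolynomial.C (σ := Fin s) (R := k)) := by
    rw [Polynomial.lifts_iff_coeff_lifts]
    intro i
    have e4 := congrArg (fun q => Polynomial.coeff q i) (e1.symm.trans e2)
    simp only [Polynomial.coeff_map] at e4
    have e5 : degL k s L (algebraMap _ L (P.coeff i)) ≤ 1 := by
      rw [e4]
      exact ((minpoly (degL k s L).valuationSubring y).coeff i).2
    rw [degL_algebraMap] at e5
    obtain ⟨c, hc⟩ := degv_le_one k s e5
    exact ⟨c, hc.symm⟩
  obtain ⟨q, hq1, _, hq2⟩ := Polynomial.lifts_and_natDegree_eq_and_monic e3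
    (by rw [hP]; exact minpoly.monic h1)
  refine ⟨q, hq2, ?_⟩
  have e6 := minpoly.aeval (MvPolynomial (Fin s) k) y
  rw [← hP, ← hq1, Polynomial.aeval_def, Polynomial.eval₂_map] at e6
  rw [IsScalarTower.algebraMap_eq k (MvPolynomial (Fin s) k) F]
  exact e6

end

end Pool.Agent.GLT
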