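import Pool.Agent.GLT.Step

/-!
# Elements of finite order
-/

set_option autoImplicit false

namespace Pool.Agent.GLT

open Matrix

/-- If `tr ^ 2 / det` is algebraic over the prime field, then the element has finite order. -/
theorem isOfFinOrder_of_tau (p : ℕ) [Fact p.Prime] (K : Type) [Field K] [Algebra (ZMod p) K]
    (g : ProjGenLinGroup (Fin 2) K) (hg : IsIntegral (ZMod p) (tau g)) : IsOfFinOrder g := by
  induction g using ProjGenLinGroup.induction_on with
  | mk M =>
    rw [tau_mk] at hg
    obtain ⟨t, ht⟩ : ∃ t, t = tauG M := ⟨_, rfl⟩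
    rw [← ht] at hg
    obtain ⟨U, hU⟩ : ∃ U : GL (Fin 2) K,
      U = M * M * GeneralLinearGroup.scalar (Fin 2) (M.det⁻¹ : Kˣ) := ⟨_, rfl⟩
    have hmk : ProjGenLinGroup.mk U = ProjGenLinGroup.mk M ^ 2 := by
      rw [hU, map_mul, map_mul, ProjGenLinGroup.mk_scalar, mul_one, pow_two]
    -- the quadratic equation of U
    have hUU : U.1 * U.1 = (t - 2) • U.1 - 1 := by
      have hd : M.1.det ≠ 0 := by
        have := M.det.ne_zero
        rwa [GeneralLinearGroup.val_det_apply] at this
      have hU1 : U.1 = (M.1.det)⁻¹ • (M.1 * M.1) := by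
        rw [hU, Units.val_mul, Units.val_mul, GeneralLinearGroup.coe_scalar]
        ext i j
        rw [Matrix.scalar_apply, Matrix.mul_diagonal, Matrix.smul_apply, smul_eq_mul, mul_comm,
          Units.val_inv_eq_inv_val, GeneralLinearGroup.val_det_apply]
      have ht1 : t = M.1.trace ^ 2 * (M.1.det)⁻¹ := by
        rw [ht, tauG, Units.val_inv_eq_inv_val, GeneralLinearGroup.val_det_apply]
      rw [hU1, ht1]
      rw [Matrix.det_fin_two] at hd ⊢
      rw [Matrix.trace_fin_two]
      obtain ⟨a, ha⟩ : ∃ a, a = M.1 0 0 := ⟨_, rfl⟩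
      obtain ⟨b, hb⟩ : ∃ b, b = M.1 0 1 := ⟨_, rfl⟩
      obtain ⟨c, hc⟩ : ∃ c, c = M.1 1 0 := ⟨_, rfl⟩
      obtain ⟨d, hd'⟩ : ∃ d, d = M.1 1 1 := ⟨_, rfl⟩
      have hM : M.1 = !![a, b; c, d] := by
        rw [Matrix.eta_fin_two M.1, ha, hb, hc, hd']
      rw [← ha, ← hb, ← hc, ← hd'] at hd ⊢
      rw [hM, Matrix.mul_fin_two]
      ext i j
      fin_cases i <;> fin_cases j
      · simp [Matrix.mul_apply, Fin.sum_univ_two]
        field_simp
        ring
      · simp [Matrix.mul_apply, Fin.sum_univ_two]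
        field_simp
        ring
      · simp [Matrix.mul_apply, Fin.sum_univ_two]
        field_simp
        ring
      · simp [Matrix.mul_apply, Fin.sum_univ_two]
        field_simp
        ring
    -- the powers of U
    let k := Algebra.adjoin (ZMod p) {t}
    have hkf : Module.Finite (ZMod p) k :=
      Module.Finite.iff_fg.2 hg.fg_adjoin_singleton
    have hkf' : Finite k := Module.finite_of_finite (ZMod p)
    have htk : t ∈ k := Algebra.subset_adjoin rfl
    have hpow : ∀ n : ℕ, ∃ a b : k, (U ^ n).1 = (a : K) • (1 : Matrix (Fin 2) (Fin 2) K)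
        + (b : K) • U.1 := by
      intro n
      induction n with
      | zero => exact ⟨1, 0, by simp⟩
      | succ n ih =>
        obtain ⟨a, b, h⟩ := ih
        refine ⟨-b, a + b * (⟨t, htk⟩ - 2), ?_⟩
        rw [pow_succ, Units.val_mul, h, add_mul, Matrix.smul_mul, Matrix.smul_mul, one_mul, hUU]
        have e1 : ((-b : k) : K) = - (b : K) := rfl
        have e2 : ((a + b * (⟨t, htk⟩ - 2) : k) : K) = a + b * (t - 2) := rfl
        rw [e1, e2]
        module
    have hfin : IsOfFinOrder U := by
      rw [← finite_powers]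
      have h1 : (Set.range (fun x : k × k => ((x.1 : K) • (1 : Matrix (Fin 2) (Fin 2) K)
        + (x.2 : K) • U.1))).Finite := Set.finite_range _
      refine (h1.preimage (f := fun V : GL (Fin 2) K => V.1) Units.val_injective.injOn).subset ?_
      rintro _ ⟨n, rfl⟩
      obtain ⟨a, b, h⟩ := hpow n
      exact ⟨(a, b), h.symm⟩
    have h1 : IsOfFinOrder (ProjGenLinGroup.mk M ^ 2) := by
      rw [← hmk]
      exact MonoidHom.isOfFinOrder ProjGenLinGroup.mk hfin
    exact h1.of_pow two_ne_zero

end Pool.Agent.GLT
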