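import Pool.Agent.GLT.Deg

/-!
# Finitely many valuations cut out the algebraic elements
-/

set_option autoImplicit false

namespace Pool.Agent.GLT

open WithZero IsDedekindDomain
open scoped WithZero

/-- The ring of a discrete valuation is a Dedekind domain. -/
theorem isDedekind_of_unif (L : Type) [Field L] (v : Valuation L ℤᵐ⁰)
    (hv : ∃ π : L, v π = exp (-1 : ℤ)) : IsDedekindDomain v.valuationSubring := by
  have h1 : Nontrivial (MonoidWithZeroHom.valueGroup (MonoidWithZeroHom.ofClass v)) := by
    obtain ⟨π, hπ⟩ := hv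
    rw [Subgroup.nontrivial_iff_exists_ne_one]
    refine ⟨Units.mk0 (exp (-1 : ℤ)) exp_ne_zero,
      MonoidWithZeroHom.mem_valueGroup _ ⟨π, hπ⟩, ?_⟩
    intro h
    have h2 := congrArg Units.val h
    rw [Units.val_mk0, Units.val_one, exp_eq_one] at h2
    omega
  have : IsPrincipalIdealRing v.valuationSubring :=
    Valuation.valuationSubring_isPrincipalIdealRing v
  infer_instance

/-- Powers of finitely many elements are separable. -/
theorem exists_pow_sep (p : ℕ) [Fact p.Prime] (L E : Type) [Field L] [Field E] [Algebra L E]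
    [Algebra.IsAlgebraic L E] [CharP E p] (S : Finset E) :
    ∃ n : ℕ, ∀ x ∈ S, x ^ p ^ n ∈ separableClosure L E := by
  classical
  have hq : ExpChar E p := ExpChar.prime Fact.out
  have hq' : ExpChar (separableClosure L E) p :=
    (algebraMap (separableClosure L E) E).expChar (algebraMap (separableClosure L E) E).injective p
  have h1 : ∀ x : E, ∃ n : ℕ, x ^ p ^ n ∈ separableClosure L E := by
    intro x
    obtain ⟨n, y, hy⟩ := IsPurelyInseparable.pow_mem (separableClosure L E) p x
    exact ⟨n, by rw [← hy]; exact y.2⟩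
  choose f hf using h1
  refine ⟨S.sup f, fun x hx => ?_⟩
  obtain ⟨m, hm⟩ := Nat.exists_eq_add_of_le (Finset.le_sup hx : f x ≤ S.sup f)
  rw [hm, pow_add, pow_mul]
  exact pow_mem (hf x) _

/-- Valuations on a finite separable extension. -/
theorem exists_vals_sep (k : Type) [Field k] (s : ℕ) (hs : 0 < s) (L : Type) [Field L]
    [Algebra (MvPolynomial (Fin s) k) L] [IsFractionRing (MvPolynomial (Fin s) k) L]
    (F : Type) [Field F] [Algebra L F] [Algebra (MvPolynomial (Fin s) k) F]
    [IsScalarTower (MvPolynomial (Fin s) k) L F] [Algebra k F]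
    [IsScalarTower k (MvPolynomial (Fin s) k) F]
    [FiniteDimensional L F] [Algebra.IsSeparable L F] (S : Finset F) :
    ∃ (ι : Type) (v : ι → Valuation F ℤᵐ⁰) (W : Finset ι),
      (∀ i, ∃ π : F, v i π = exp (-1 : ℤ)) ∧
      (∀ i, i ∉ W → ∀ x ∈ S, v i x ≤ 1) ∧
      ∀ y : F, IsIntegral (MvPolynomial (Fin s) k) y → (∀ i, v i y ≤ 1) → IsIntegral k y := by
  classical
  let O := (degL k s L).valuationSubring
  let C := integralClosure O F
  have hO : IsDedekindDomain O := isDedekind_of_unif L _ (degL_unif k s L hs)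
  have hC : IsDedekindDomain C := integralClosure.isDedekindDomain O L F
  have hCF : IsFractionRing C F := integralClosure.isFractionRing_of_finite_extension L F
  refine ⟨HeightOneSpectrum C, fun w => w.valuation F,
    S.biUnion (fun x => (HeightOneSpectrum.Support.finite (R := C) x).toFinset),
    fun w => w.valuation_exists_uniformizer F, ?_, ?_⟩
  · intro w hw x hx
    by_contra h
    apply hw
    rw [Finset.mem_biUnion]
    refine ⟨x, hx, ?_⟩
    rw [Set.Finite.mem_toFinset]
    exact not_le.1 h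
  · intro y hy1 hy2
    obtain ⟨c, hc⟩ := HeightOneSpectrum.mem_integers_of_valuation_le_one (R := C) F y hy2
    refine isIntegral_of_deg k s L F y hy1 ?_
    rw [← hc]
    exact c.2

theorem val_natCast_le {F : Type} [Field F] (v : Valuation F ℤᵐ⁰) (m : ℕ) : v (m : F) ≤ 1 := by
  induction m with
  | zero =>
    rw [Nat.cast_zero, map_zero v]
    exact zero_le
  | succ m ih =>
    rw [Nat.cast_add]
    refine (v.map_add _ _).trans (max_le ih ?_)
    rw [Nat.cast_one, map_one v]

/-- Finitely many valuations, over the polynomials. -/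
theorem exists_vals_tower (p : ℕ) [Fact p.Prime] (s : ℕ) (hs : 0 < s) (K : Type) [Field K]
    [Algebra (ZMod p) K] [Algebra (MvPolynomial (Fin s) (ZMod p)) K]
    [IsScalarTower (ZMod p) (MvPolynomial (Fin s) (ZMod p)) K]
    (hinj : Function.Injective (algebraMap (MvPolynomial (Fin s) (ZMod p)) K))
    (S : Finset K) (hS : ∀ x ∈ S, IsIntegral (MvPolynomial (Fin s) (ZMod p)) x) :
    ∃ (F : Type) (_ : Field F) (φ : Algebra.adjoin (ZMod p) (S : Set K) →+* F)
      (ι : Type) (v : ι → Valuation F ℤᵐ⁰) (W : Finset ι),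
      (∀ i, ∃ π : F, v i π = exp (-1 : ℤ)) ∧
      ∀ a, (∀ i ∈ W, v i (φ a) ≤ 1) → IsIntegral (ZMod p) a := by
  classical
  have hch : CharP K p := charP_of_injective_algebraMap (algebraMap (ZMod p) K).injective p
  have hsm : FaithfulSMul (MvPolynomial (Fin s) (ZMod p)) K :=
    (faithfulSMul_iff_algebraMap_injective _ _).2 hinj
  let L := FractionRing (MvPolynomial (Fin s) (ZMod p))
  let _ : Algebra L K := FractionRing.liftAlgebra (MvPolynomial (Fin s) (ZMod p)) K
  have _ : IsScalarTower (MvPolynomial (Fin s) (ZMod p)) L K :=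
    FractionRing.isScalarTower_liftAlgebra _ _
  have _ : IsScalarTower (ZMod p) L K := IsScalarTower.to₁₃₄ (ZMod p)
    (MvPolynomial (Fin s) (ZMod p)) L K
  let E := IntermediateField.adjoin L (S : Set K)
  have _ : FiniteDimensional L E := IntermediateField.finiteDimensional_adjoin
    (fun x hx => (hS x hx).tower_top)
  have hEch : CharP E p := (algebraMap E K).charP (algebraMap E K).injective p
  have hKx : ExpChar K p := ExpChar.prime Fact.out
  have hEx : ExpChar E p := ExpChar.prime Fact.out
  have hSE : ∀ x ∈ S, x ∈ E := fun x hx => IntermediateField.subset_adjoin L _ hx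
  obtain ⟨n, hn⟩ := exists_pow_sep p L E
    (S.attach.image (fun x : {x : K // x ∈ S} => (⟨x.1, hSE x.1 x.2⟩ : E)))
  have hn' : ∀ x (hx : x ∈ S), (⟨x, hSE x hx⟩ : E) ^ p ^ n ∈ separableClosure L E := by
    intro x hx
    apply hn
    rw [Finset.mem_image]
    exact ⟨⟨x, hx⟩, Finset.mem_attach _ _, rfl⟩
  have hAE : ∀ a ∈ Algebra.adjoin (ZMod p) (S : Set K),
      ∃ h : a ∈ E, (⟨a, h⟩ : E) ^ p ^ n ∈ separableClosure L E := by
    intro a ha
    induction ha using Algebra.adjoin_induction with
    | mem x hx => exact ⟨hSE x hx, hn' x hx⟩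
    | algebraMap r =>
      have h1 : algebraMap (ZMod p) K r = ((algebraMap (ZMod p) E r : E) : K) := rfl
      refine ⟨by rw [h1]; exact Subtype.mem _, ?_⟩
      have h2 : (⟨algebraMap (ZMod p) K r, by rw [h1]; exact Subtype.mem _⟩ : E)
          = algebraMap (ZMod p) E r := rfl
      rw [h2, ← map_pow]
      exact ((separableClosure L E).toSubalgebra.restrictScalars (ZMod p)).algebraMap_mem _
    | add x y _ _ hx hy =>
      obtain ⟨h1, h2⟩ := hx
      obtain ⟨h3, h4⟩ := hy
      refine ⟨add_mem h1 h3, ?_⟩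
      have h5 : (⟨x + y, add_mem h1 h3⟩ : E) = ⟨x, h1⟩ + ⟨y, h3⟩ := rfl
      rw [h5, add_pow_expChar_pow]
      exact add_mem h2 h4
    | mul x y _ _ hx hy =>
      obtain ⟨h1, h2⟩ := hx
      obtain ⟨h3, h4⟩ := hy
      refine ⟨mul_mem h1 h3, ?_⟩
      have h5 : (⟨x * y, mul_mem h1 h3⟩ : E) = ⟨x, h1⟩ * ⟨y, h3⟩ := rfl
      rw [h5, mul_pow]
      exact mul_mem h2 h4
  let F := separableClosure L E
  let φ0 : Algebra.adjoin (ZMod p) (S : Set K) →+* E :=
    (Algebra.adjoin (ZMod p) (S : Set K)).val.toRingHom.codRestrict E (fun a => (hAE a.1 a.2).1)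
  let φ : Algebra.adjoin (ZMod p) (S : Set K) →+* F :=
    ((iterateFrobenius E p n).comp φ0).codRestrict F (fun a => (hAE a.1 a.2).2)
  have hφ : ∀ a, algebraMap F K (φ a) = (a : K) ^ p ^ n := fun a => rfl
  obtain ⟨ι, v, W, h1, h2, h3⟩ := exists_vals_sep (ZMod p) s hs L F
    (S.attach.image (fun x : {x : K // x ∈ S} => φ ⟨x.1, Algebra.subset_adjoin x.2⟩))
  refine ⟨F, inferInstance, φ, ι, v, W, h1, fun a ha => ?_⟩
  have h4 : ∀ i, v i (φ a) ≤ 1 := by
    intro i
    by_cases hi : i ∈ W
    · exact ha i hi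
    · have h5 : ∀ b (hb : b ∈ Algebra.adjoin (ZMod p) (S : Set K)), v i (φ ⟨b, hb⟩) ≤ 1 := by
        intro b hb
        induction hb using Algebra.adjoin_induction with
        | mem x hx =>
          apply h2 i hi
          rw [Finset.mem_image]
          exact ⟨⟨x, hx⟩, Finset.mem_attach _ _, rfl⟩
        | algebraMap r =>
          obtain ⟨m, rfl⟩ := ZMod.natCast_zmod_surjective r
          have h8 : (⟨algebraMap (ZMod p) K (m : ZMod p), Subalgebra.algebraMap_mem _ _⟩ :
              Algebra.adjoin (ZMod p) (S : Set K)) = (m : Algebra.adjoin (ZMod p) (S : Set K)) :=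
            Subtype.ext (map_natCast (algebraMap (ZMod p) K) m)
          rw [h8, map_natCast φ]
          exact val_natCast_le (v i) m
        | add x y hx hy h6 h7 =>
          have h8 : (⟨x + y, add_mem hx hy⟩ : Algebra.adjoin (ZMod p) (S : Set K))
            = ⟨x, hx⟩ + ⟨y, hy⟩ := rfl
          rw [h8, map_add φ]
          exact ((v i).map_add _ _).trans (max_le h6 h7)
        | mul x y hx hy h6 h7 =>
          have h8 : (⟨x * y, mul_mem hx hy⟩ : Algebra.adjoin (ZMod p) (S : Set K))
            = ⟨x, hx⟩ * ⟨y, hy⟩ := rfl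
          rw [h8, map_mul φ, map_mul (v i)]
          exact mul_le_one' h6 h7
      exact h5 a.1 a.2
  have h5 : IsIntegral (MvPolynomial (Fin s) (ZMod p)) (a : K) := by
    obtain ⟨a, ha0⟩ := a
    change IsIntegral (MvPolynomial (Fin s) (ZMod p)) a
    clear h4 ha
    induction ha0 using Algebra.adjoin_induction with
    | mem x hx => exact hS x hx
    | algebraMap r =>
      rw [IsScalarTower.algebraMap_apply (ZMod p) (MvPolynomial (Fin s) (ZMod p)) K]
      exact isIntegral_algebraMap
    | add x y _ _ hx hy => exact hx.add hy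
    | mul x y _ _ hx hy => exact hx.mul hy
  have _ : IsScalarTower (MvPolynomial (Fin s) (ZMod p)) F K :=
    IsScalarTower.of_algebraMap_eq (fun x => rfl)
  have _ : IsScalarTower (ZMod p) F K := IsScalarTower.of_algebraMap_eq (fun x => rfl)
  have h6 : IsIntegral (MvPolynomial (Fin s) (ZMod p)) (φ a) := by
    rw [← isIntegral_algebraMap_iff (algebraMap F K).injective, hφ]
    exact h5.pow _
  have h7 := h3 (φ a) h6 h4
  rw [← isIntegral_algebraMap_iff (algebraMap F K).injective, hφ] at h7
  have h8 : IsIntegral (ZMod p) (a : K) := h7.of_pow (pow_pos (Fact.out (p := p.Prime)).pos _)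
  exact (isIntegral_algebraMap_iff (A := Algebra.adjoin (ZMod p) (S : Set K)) (B := K)
    Subtype.val_injective).1 h8

/-- Finitely many valuations cut out the elements which are algebraic over the prime field. -/
theorem exists_vals (p : ℕ) [Fact p.Prime] (K : Type) [Field K] [Algebra (ZMod p) K]
    (S : Finset K) :
    ∃ (F : Type) (_ : Field F) (φ : Algebra.adjoin (ZMod p) (S : Set K) →+* F)
      (ι : Type) (v : ι → Valuation F ℤᵐ⁰) (W : Finset ι),
      (∀ i, ∃ π : F, v i π = exp (-1 : ℤ)) ∧
      ∀ a, (∀ i ∈ W, v i (φ a) ≤ 1) → IsIntegral (ZMod p) a := by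
  classical
  have hft : Algebra.FiniteType (ZMod p) (Algebra.adjoin (ZMod p) (S : Set K)) :=
    (Algebra.adjoin (ZMod p) (S : Set K)).fg_iff_finiteType.1 (Subalgebra.fg_adjoin_finset S)
  obtain ⟨s, g, hg1, hg2⟩ :=
    exists_integral_inj_algHom_of_fg (ZMod p) (Algebra.adjoin (ZMod p) (S : Set K))
  rcases Nat.eq_zero_or_pos s with rfl | hs
  · refine ⟨K, inferInstance, (Algebra.adjoin (ZMod p) (S : Set K)).val.toRingHom, PEmpty,
      fun i => i.elim, ∅, fun i => i.elim, fun a _ => ?_⟩
    have h1 : g.toRingHom.IsIntegralElem a := hg2 a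
    have h2 : (g.toRingHom.comp (MvPolynomial.C)).IsIntegralElem a := by
      have h3 : (MvPolynomial.C (σ := Fin 0) (R := ZMod p)).IsIntegral :=
        RingHom.isIntegral_of_surjective _ (MvPolynomial.C_surjective (Fin 0))
      exact RingHom.IsIntegral.trans _ _ h3 hg2 a
    have h3 : g.toRingHom.comp (MvPolynomial.C)
        = algebraMap (ZMod p) (Algebra.adjoin (ZMod p) (S : Set K)) :=
      RingHom.ext fun r => g.commutes r
    rw [h3] at h2
    exact h2
  · let _ : Algebra (MvPolynomial (Fin s) (ZMod p)) K :=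
      (((Algebra.adjoin (ZMod p) (S : Set K)).val).comp g).toRingHom.toAlgebra
    have hmap : ∀ x, algebraMap (MvPolynomial (Fin s) (ZMod p)) K x = (g x : K) := fun x => rfl
    have _ : IsScalarTower (ZMod p) (MvPolynomial (Fin s) (ZMod p)) K :=
      IsScalarTower.of_algebraMap_eq (fun r => by
        rw [hmap]
        exact (congrArg Subtype.val (g.commutes r)).symm)
    refine exists_vals_tower p s hs K ?_ S ?_
    · intro x y hxy
      rw [hmap, hmap] at hxy
      exact hg1 (Subtype.ext hxy)
    · intro x hx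
      obtain ⟨q, hq1, hq2⟩ := hg2 ⟨x, Algebra.subset_adjoin hx⟩
      refine ⟨q, hq1, ?_⟩
      have h1 := congrArg (Algebra.adjoin (ZMod p) (S : Set K)).val.toRingHom hq2
      rw [Polynomial.hom_eval₂, map_zero] at h1
      exact h1

end Pool.Agent.GLT
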