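import Pool.Agent.GLT.Fin
import Pool.Agent.GLT.Val

/-!
# Groups with homomorphisms to `PGL_2` over fields of positive characteristic
-/

set_option autoImplicit false

namespace Pool.Agent.GLT

open Matrix Pool.Agent.HL Pool.Agent.Art

/-- `PGL_2` of a subring embeds. -/
theorem pgl_map_injective {R S : Type} [CommRing R] [CommRing S] (f : R →+* S)
    (hf : Function.Injective f) :
    Function.Injective (ProjGenLinGroup.map (n := Fin 2) f) := by
  rw [injective_iff_map_eq_one]
  intro g
  induction g using ProjGenLinGroup.induction_on with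
  | mk M =>
    rw [ProjGenLinGroup.map_mk, ProjGenLinGroup.mk_eq_one, ProjGenLinGroup.mk_eq_one,
      GeneralLinearGroup.center_eq_range_scalar]
    rintro ⟨u, hu⟩
    have h1 : ∀ i j, f (M.1 i j) = if i = j then (u : S) else 0 := by
      intro i j
      have h2 := congrArg (fun V : GL (Fin 2) S => V.1 i j) hu
      simp only [GeneralLinearGroup.coe_scalar, Matrix.scalar_apply, Matrix.diagonal_apply] at h2
      rw [h2]
      rfl
    have h2 : M.1 0 1 = 0 := hf (by rw [h1, map_zero, if_neg (by decide)])
    have h3 : M.1 1 0 = 0 := hf (by rw [h1, map_zero, if_neg (by decide)])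
    have h4 : M.1 1 1 = M.1 0 0 := hf (by rw [h1, h1, if_pos rfl, if_pos rfl])
    have h5 : M.1 = M.1 0 0 • (1 : Matrix (Fin 2) (Fin 2) R) := by
      ext i j
      fin_cases i <;> fin_cases j
      · simp
      · simpa using h2
      · simpa using h3
      · simpa using h4
    rw [Subgroup.mem_center_iff]
    intro V
    apply Units.ext
    rw [Units.val_mul, Units.val_mul, h5, Matrix.mul_smul, Matrix.smul_mul, mul_one, one_mul]

/-- The case in which the group is defined over a finitely generated ring. -/
theorem hierL_pgl_adjoin (p : ℕ) [Fact p.Prime] (K : Type) [Field K] [Algebra (ZMod p) K]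
    {Γ : Type} [Group Γ] (S : Finset K)
    (ρ : Γ →* ProjGenLinGroup (Fin 2) (Algebra.adjoin (ZMod p) (S : Set K)))
    (h : ∀ T : Subgroup Γ, (∀ t ∈ T, IsOfFinOrder (ProjGenLinGroup.map
      (Algebra.adjoin (ZMod p) (S : Set K)).val.toRingHom (ρ t))) → HierL T) : HierL Γ := by
  obtain ⟨F, _, φ, ι, v, W, h1, h2⟩ := exists_vals p K S
  refine hierL_vals (fun _ : ι => F) v h1 W (fun _ => (ProjGenLinGroup.map φ).comp ρ)
    (fun T hT => h T (fun t ht => ?_))
  apply isOfFinOrder_of_tau p K
  rw [tau_map]
  have h3 : IsIntegral (ZMod p) (tau (ρ t)) := by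
    apply h2
    intro i hi
    have h4 := hT t ht i hi
    rw [MonoidHom.comp_apply, tau_map] at h4
    exact h4
  exact h3.map (Algebra.adjoin (ZMod p) (S : Set K)).val

/-- The main theorem for one field. -/
theorem hierL_pgl (p : ℕ) [Fact p.Prime] (K : Type) [Field K] [Algebra (ZMod p) K]
    {Γ : Type} [Group Γ] (ρ : Γ →* ProjGenLinGroup (Fin 2) K)
    (h : ∀ T : Subgroup Γ, (∀ t ∈ T, IsOfFinOrder (ρ t)) → HierL T) : HierL Γ := by
  classical
  refine HierL.union Γ (fun F => Subgroup.closure (F : Set Γ))
    (fun F g hg => Subgroup.subset_closure hg) (fun F0 => ?_)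
  -- lifts of the generators
  obtain ⟨M, hM⟩ : ∃ M : Γ → GL (Fin 2) K, ∀ g, ProjGenLinGroup.mk (M g) = ρ g :=
    ⟨fun g => Function.surjInv ProjGenLinGroup.mk_surjective (ρ g),
      fun g => Function.surjInv_eq ProjGenLinGroup.mk_surjective _⟩
  let S : Finset K := F0.biUnion (fun g => Finset.univ.biUnion (fun i : Fin 2 =>
    Finset.univ.biUnion (fun j : Fin 2 => {(M g).1 i j, (M g)⁻¹.1 i j})))
  have hS1 : ∀ g ∈ F0, ∀ i j, (M g).1 i j ∈ Algebra.adjoin (ZMod p) (S : Set K) := by
    intro g hg i j
    apply Algebra.subset_adjoin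
    simp only [S, Finset.coe_biUnion, Set.mem_iUnion]
    exact ⟨g, hg, i, Finset.mem_univ _, j, Finset.mem_univ _, by simp⟩
  have hS2 : ∀ g ∈ F0, ∀ i j, (M g)⁻¹.1 i j ∈ Algebra.adjoin (ZMod p) (S : Set K) := by
    intro g hg i j
    apply Algebra.subset_adjoin
    simp only [S, Finset.coe_biUnion, Set.mem_iUnion]
    exact ⟨g, hg, i, Finset.mem_univ _, j, Finset.mem_univ _, by simp⟩
  let A := Algebra.adjoin (ZMod p) (S : Set K)
  let inc : ProjGenLinGroup (Fin 2) A →* ProjGenLinGroup (Fin 2) K :=
    ProjGenLinGroup.map A.val.toRingHom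
  have hinc : Function.Injective inc := pgl_map_injective _ Subtype.val_injective
  have hmem : ∀ g ∈ Subgroup.closure (F0 : Set Γ), ρ g ∈ inc.range := by
    intro g hg
    have h1 : Subgroup.closure (F0 : Set Γ) ≤ inc.range.comap ρ := by
      rw [Subgroup.closure_le]
      intro g hg
      have hg' : g ∈ F0 := hg
      change ρ g ∈ inc.range
      let N : GL (Fin 2) A :=
        { val := Matrix.of fun i j => ⟨(M g).1 i j, hS1 g hg' i j⟩
          inv := Matrix.of fun i j => ⟨(M g)⁻¹.1 i j, hS2 g hg' i j⟩
          val_inv := by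
            ext i j
            have h2 := congrFun (congrFun (M g).val_inv i) j
            rw [Matrix.mul_apply] at h2 ⊢
            rw [Matrix.one_apply] at h2 ⊢
            rw [AddSubmonoidClass.coe_finsetSum]
            change ∑ x, (M g).1 i x * (M g)⁻¹.1 x j = _
            refine h2.trans ?_
            split_ifs <;> rfl
          inv_val := by
            ext i j
            have h2 := congrFun (congrFun (M g).inv_val i) j
            rw [Matrix.mul_apply] at h2 ⊢
            rw [Matrix.one_apply] at h2 ⊢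
            rw [AddSubmonoidClass.coe_finsetSum]
            change ∑ x, (M g)⁻¹.1 i x * (M g).1 x j = _
            refine h2.trans ?_
            split_ifs <;> rfl }
      refine ⟨ProjGenLinGroup.mk N, ?_⟩
      rw [← hM]
      change ProjGenLinGroup.map A.val.toRingHom (ProjGenLinGroup.mk N) = _
      rw [ProjGenLinGroup.map_mk]
      congr 1
    exact h1 hg
  let ρA : Subgroup.closure (F0 : Set Γ) →* ProjGenLinGroup (Fin 2) A :=
    (MonoidHom.ofInjective hinc).symm.toMonoidHom.comp
      ((ρ.comp (Subgroup.closure (F0 : Set Γ)).subtype).codRestrict inc.range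
        (fun g => hmem g.1 g.2))
  have hρA : ∀ g : Subgroup.closure (F0 : Set Γ), inc (ρA g) = ρ g.1 := by
    intro g
    exact congrArg Subtype.val ((MonoidHom.ofInjective hinc).apply_symm_apply _)
  refine hierL_pgl_adjoin p K S ρA (fun T hT => ?_)
  have h1 : HierL (T.map (Subgroup.closure (F0 : Set Γ)).subtype) := by
    apply h
    rintro _ ⟨t, ht, rfl⟩
    have h2 := hT t ht
    change IsOfFinOrder (inc (ρA t)) at h2
    rw [hρA] at h2
    exact h2
  exact hierL_equiv (T.equivMapOfInjective _ (Subgroup.subtype_injective _)) h1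

/-- The main theorem for a finite family of fields. -/
theorem hierL_pgls {ι : Type} (p : ι → ℕ) [∀ i, Fact (p i).Prime] (K : ι → Type)
    [∀ i, Field (K i)] [∀ i, Algebra (ZMod (p i)) (K i)] (I : Finset ι) :
    ∀ {Γ : Type} [Group Γ] (ρ : ∀ i, Γ →* ProjGenLinGroup (Fin 2) (K i))
    (_ : ∀ T : Subgroup Γ, (∀ t ∈ T, ∀ i ∈ I, IsOfFinOrder (ρ i t)) → HierL T), HierL Γ := by
  classical
  induction I using Finset.induction_on with
  | empty =>
    intro Γ _ ρ h
    exact hierL_equiv Subgroup.topEquiv.symm
      (h ⊤ (fun s _ i hi => absurd hi (Finset.notMem_empty i)))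
  | insert a I ha ih =>
    intro Γ _ ρ h
    refine hierL_pgl (p a) (K a) (ρ a) (fun S hS => ?_)
    refine ih (fun i => (ρ i).comp S.subtype) (fun T hT => ?_)
    have h1 : HierL (T.map S.subtype) := by
      apply h
      rintro _ ⟨t, ht, rfl⟩ i hi
      rcases Finset.mem_insert.1 hi with rfl | hi
      · exact hS _ t.2
      · exact hT t ht i hi
    exact hierL_equiv (T.equivMapOfInjective S.subtype S.subtype_injective) h1

end Pool.Agent.GLT
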