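import Mathlib

/-!
# Graphs given by a parent function are trees
-/

set_option autoImplicit false

namespace Pool.Agent.GLT

/-- The graph of a parent function. -/
def parGraph {X : Type} (par : X → X) : SimpleGraph X :=
  SimpleGraph.fromRel fun x y => y = par x

theorem parGraph_adj {X : Type} (par : X → X) (lev : X → ℤ) (hl : ∀ x, lev (par x) = lev x - 1)
    (x y : X) : (parGraph par).Adj x y ↔ y = par x ∨ x = par y := by
  rw [parGraph, SimpleGraph.fromRel_adj]
  constructor
  · exact fun h => h.2
  · intro h
    refine ⟨?_, h⟩
    rintro rfl
    have h1 : x = par x := by rcases h with h | h <;> exact h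
    have h2 := hl x
    rw [← h1] at h2
    omega

theorem lev_iterate {X : Type} {par : X → X} {lev : X → ℤ} (hl : ∀ x, lev (par x) = lev x - 1)
    (k : ℕ) (x : X) : lev (par^[k] x) = lev x - k := by
  induction k generalizing x with
  | zero => simp
  | succ k ih =>
    rw [Function.iterate_succ_apply, ih, hl]
    push_cast
    ring

theorem reach_iterate {X : Type} {par : X → X} {lev : X → ℤ} (hl : ∀ x, lev (par x) = lev x - 1)
    (k : ℕ) (x : X) : (parGraph par).Reachable x (par^[k] x) := by
  induction k generalizing x with
  | zero => exact SimpleGraph.Reachable.refl _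
  | succ k ih =>
    rw [Function.iterate_succ_apply]
    exact ((parGraph_adj par lev hl x (par x)).2 (Or.inl rfl)).reachable.trans (ih (par x))

theorem parGraph_isTree {X : Type} [Nonempty X] (par : X → X) (lev : X → ℤ)
    (hl : ∀ x, lev (par x) = lev x - 1) (hc : ∀ x y, ∃ m n : ℕ, par^[m] x = par^[n] y) :
    (parGraph par).IsTree := by
  refine ⟨⟨fun x y => ?_⟩, ?_⟩
  · obtain ⟨m, n, h⟩ := hc x y
    refine (reach_iterate hl m x).trans ?_
    rw [h]
    exact (reach_iterate hl n y).symm
  · rw [SimpleGraph.isAcyclic_iff_forall_adj_isBridge]
    -- it is enough to treat the edge `x, par x`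
    have key : ∀ x : X, ¬ ((parGraph par).deleteEdges {s(x, par x)}).Reachable x (par x) := by
      intro x hr
      have hD : ∀ (a b : X) (w : ((parGraph par).deleteEdges {s(x, par x)}).Walk a b),
          (∃ k : ℕ, par^[k] a = x) → ∃ k : ℕ, par^[k] b = x := by
        intro a b w
        induction w with
        | nil => exact fun h => h
        | @cons a b c h p ih =>
          rintro ⟨k, hk⟩
          apply ih
          rw [SimpleGraph.deleteEdges_adj] at h
          obtain ⟨h1, h2⟩ := h
          rw [parGraph_adj par lev hl] at h1
          rcases h1 with h1 | h1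
          · rcases k with _ | k
            · exfalso
              apply h2
              have h3 : a = x := hk
              rw [h1, h3]
              rfl
            · refine ⟨k, ?_⟩
              rw [h1]
              rw [Function.iterate_succ_apply] at hk
              exact hk
          · refine ⟨k + 1, ?_⟩
            rw [Function.iterate_succ_apply, ← h1]
            exact hk
      obtain ⟨w⟩ := hr
      obtain ⟨k, hk⟩ := hD _ _ w ⟨0, rfl⟩
      have h1 := lev_iterate hl k (par x)
      rw [hk, hl] at h1
      omega
    intro x y hxy
    rw [parGraph_adj par lev hl] at hxy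
    rw [SimpleGraph.isBridge_iff]
    rcases hxy with rfl | rfl
    · exact key x
    · rw [Sym2.eq_swap]
      intro h
      exact key y h.symm

end Pool.Agent.GLT
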