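import Pool.Agent.GLT.Par
import Pool.Agent.Art.Hier

/-!
# Actions on trees given by a parent function, inversions allowed
-/

set_option autoImplicit false

namespace Pool.Agent.GLT

open Pool.Agent.HL Pool.Agent.Art

section

variable {X : Type} (par : X → X) (lev : X → ℤ) (hl : ∀ x, lev (par x) = lev x - 1)

include hl in
/-- The edge above a vertex. -/
theorem edge_mem (x : X) : s(x, par x) ∈ (parGraph par).edgeSet := by
  rw [SimpleGraph.mem_edgeSet, parGraph_adj par lev hl]
  exact Or.inl rfl

include hl in
theorem edge_exists (e : (parGraph par).edgeSet) : ∃ x, e.1 = s(x, par x) := by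
  obtain ⟨e, he⟩ := e
  induction e using Sym2.ind with
  | _ x y =>
    rw [SimpleGraph.mem_edgeSet, parGraph_adj par lev hl] at he
    rcases he with rfl | rfl
    · exact ⟨x, rfl⟩
    · exact ⟨y, Sym2.eq_swap⟩

/-- The lower end of an edge. -/
noncomputable def bot (e : (parGraph par).edgeSet) : X := (edge_exists par lev hl e).choose

theorem bot_spec (e : (parGraph par).edgeSet) : e.1 = s(bot par lev hl e, par (bot par lev hl e)) :=
  (edge_exists par lev hl e).choose_spec

include hl in
theorem edge_inj (x y : X) (h : s(x, par x) = s(y, par y)) : x = y := by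
  rw [Sym2.eq_iff] at h
  rcases h with ⟨h, _⟩ | ⟨h1, h2⟩
  · exact h
  · exfalso
    have h3 := hl x
    have h4 := hl y
    rw [h2] at h3
    rw [← h1] at h4
    omega

theorem bot_edge (x : X) : bot par lev hl ⟨s(x, par x), edge_mem par lev hl x⟩ = x := by
  apply edge_inj par lev hl
  rw [← bot_spec par lev hl]

/-- The parent function of the subdivision. -/
noncomputable def spar : X ⊕ (parGraph par).edgeSet → X ⊕ (parGraph par).edgeSet :=
  Sum.elim (fun x => Sum.inr ⟨s(x, par x), edge_mem par lev hl x⟩)
    (fun e => Sum.inl (par (bot par lev hl e)))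

/-- The level function of the subdivision. -/
noncomputable def slev : X ⊕ (parGraph par).edgeSet → ℤ :=
  Sum.elim (fun x => 2 * lev x) (fun e => 2 * lev (bot par lev hl e) - 1)

theorem slev_spar (z : X ⊕ (parGraph par).edgeSet) :
    slev par lev hl (spar par lev hl z) = slev par lev hl z - 1 := by
  rcases z with x | e
  · simp only [spar, slev, Sum.elim_inl, Sum.elim_inr, bot_edge]
  · simp only [spar, slev, Sum.elim_inl, Sum.elim_inr, hl]
    ring

theorem spar_iterate (k : ℕ) (x : X) :
    (spar par lev hl)^[2 * k] (Sum.inl x) = Sum.inl (par^[k] x) := by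
  induction k generalizing x with
  | zero => rfl
  | succ k ih =>
    rw [show 2 * (k + 1) = 2 * k + 1 + 1 by ring, Function.iterate_succ_apply,
      Function.iterate_succ_apply, Function.iterate_succ_apply, ← ih]
    congr 1
    simp only [spar, Sum.elim_inl, Sum.elim_inr, bot_edge]

theorem spar_common (hc : ∀ x y, ∃ m n : ℕ, par^[m] x = par^[n] y)
    (z w : X ⊕ (parGraph par).edgeSet) :
    ∃ m n : ℕ, (spar par lev hl)^[m] z = (spar par lev hl)^[n] w := by
  have h1 : ∀ z : X ⊕ (parGraph par).edgeSet, ∃ (k : ℕ) (x : X),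
      (spar par lev hl)^[k] z = Sum.inl x := by
    rintro (x | e)
    · exact ⟨0, x, rfl⟩
    · exact ⟨1, _, rfl⟩
  obtain ⟨k, x, hk⟩ := h1 z
  obtain ⟨l, y, hy⟩ := h1 w
  obtain ⟨m, n, h⟩ := hc x y
  refine ⟨2 * m + k, 2 * n + l, ?_⟩
  rw [Function.iterate_add_apply, Function.iterate_add_apply, hk, hy, spar_iterate, spar_iterate, h]

theorem spar_adj (x : X) (e : (parGraph par).edgeSet) :
    (parGraph (spar par lev hl)).Adj (Sum.inl x) (Sum.inr e) ↔ x ∈ e.1 := by
  rw [parGraph_adj _ (slev par lev hl) (slev_spar par lev hl)]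
  have h1 := bot_spec par lev hl e
  simp only [spar, Sum.elim_inl, Sum.elim_inr, Sum.inr.injEq, Sum.inl.injEq]
  rw [h1, Sym2.mem_iff]
  constructor
  · rintro (h | h)
    · left
      rw [h, bot_edge]
    · exact Or.inr h
  · rintro (h | h)
    · left
      apply Subtype.ext
      rw [h1, h]
    · exact Or.inr h

theorem spar_not_ll (x y : X) : ¬ (parGraph (spar par lev hl)).Adj (Sum.inl x) (Sum.inl y) := by
  rw [parGraph_adj _ (slev par lev hl) (slev_spar par lev hl)]
  simp [spar]

theorem spar_not_rr (x y : (parGraph par).edgeSet) :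
    ¬ (parGraph (spar par lev hl)).Adj (Sum.inr x) (Sum.inr y) := by
  rw [parGraph_adj _ (slev par lev hl) (slev_spar par lev hl)]
  simp [spar]

end

/-- A group acting on a tree given by a parent function, inversions allowed. -/
theorem hierL_par {G X : Type} [Group G] [MulAction G X] [Nonempty X] (par : X → X)
    (lev : X → ℤ) (hl : ∀ x, lev (par x) = lev x - 1)
    (hc : ∀ x y, ∃ m n : ℕ, par^[m] x = par^[n] y)
    (hadj : ∀ (g : G) (x y : X), (parGraph par).Adj x y → (parGraph par).Adj (g • x) (g • y))
    (h : ∀ (S : Subgroup G) (x : X), (∀ s ∈ S, s • s • x = x) → HierL S) : HierL G := by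
  let E := (parGraph par).edgeSet
  have hE : ∀ (g : G) (e : Sym2 X), e ∈ (parGraph par).edgeSet →
      Sym2.map (g • ·) e ∈ (parGraph par).edgeSet := by
    intro g e he
    induction e using Sym2.ind with
    | _ x y =>
      rw [Sym2.map_mk, SimpleGraph.mem_edgeSet]
      exact hadj g x y he
  let _ : MulAction G E :=
    { smul := fun g e => ⟨Sym2.map (g • ·) e.1, hE g e.1 e.2⟩
      one_smul := fun e => Subtype.ext (by
        change Sym2.map (fun x => (1 : G) • x) e.1 = e.1
        have : (fun x : X => (1 : G) • x) = id := funext fun x => one_smul G x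
        rw [this, Sym2.map_id, id])
      mul_smul := fun g k e => Subtype.ext (by
        change Sym2.map (fun x => (g * k) • x) e.1 = Sym2.map (g • ·) (Sym2.map (k • ·) e.1)
        rw [Sym2.map_map]
        congr 1
        funext x
        exact mul_smul g k x) }
  have hsm : ∀ (g : G) (e : E), (g • e).1 = Sym2.map (g • ·) e.1 := fun g e => rfl
  have hns : Nonempty (X ⊕ E) := ⟨Sum.inl (Classical.arbitrary X)⟩
  refine HierL.tree G (X ⊕ E) (parGraph (spar par lev hl))
    (parGraph_isTree _ (slev par lev hl) (slev_spar par lev hl) (spar_common par lev hl hc))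
    ?_ ?_ ?_
  · intro g u v huv
    rcases u with x | e <;> rcases v with y | f
    · exact absurd huv (spar_not_ll par lev hl x y)
    · have h1 := (spar_adj par lev hl x f).1 huv
      exact (spar_adj par lev hl (g • x) (g • f)).2 (by
        rw [hsm, Sym2.mem_map]
        exact ⟨x, h1, rfl⟩)
    · have h1 := (spar_adj par lev hl y e).1 huv.symm
      exact ((spar_adj par lev hl (g • y) (g • e)).2 (by
        rw [hsm, Sym2.mem_map]
        exact ⟨y, h1, rfl⟩)).symm
    · exact absurd huv (spar_not_rr par lev hl e f)
  · intro g u v huv hg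
    rcases u with x | e <;> rcases v with y | f
    · exact absurd huv (spar_not_ll par lev hl x y)
    · cases hg.1
    · cases hg.1
    · exact absurd huv (spar_not_rr par lev hl e f)
  · intro v
    rcases v with x | e
    · refine h _ x (fun s hs => ?_)
      have h1 : s • x = x := Sum.inl_injective hs
      rw [h1, h1]
    · obtain ⟨x, hx⟩ := edge_exists par lev hl e
      refine h _ x (fun s hs => ?_)
      have h1 : s • e = e := Sum.inr_injective hs
      have h2 := congrArg Subtype.val h1
      rw [hsm, hx, Sym2.map_mk, Sym2.eq_iff] at h2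
      rcases h2 with ⟨h2, _⟩ | ⟨h2, h3⟩
      · rw [h2, h2]
      · rw [h2, h3]

end Pool.Agent.GLT
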