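import Pool.Agent.GLT.BTree
import Pool.Agent.GLT.Sub

/-!
# One valuation
-/

set_option autoImplicit false

namespace Pool.Agent.GLT

open Matrix WithZero Pool.Agent.HL Pool.Agent.Art
open scoped WithZero

section

variable {R : Type} [CommRing R]

/-- The invariant `tr ^ 2 / det` of an invertible matrix. -/
def tauG (M : GL (Fin 2) R) : R := M.1.trace ^ 2 * ((M.det⁻¹ : Rˣ) : R)

/-- The invariant `tr ^ 2 / det` on the projective group. -/
noncomputable def tau (g : ProjGenLinGroup (Fin 2) R) : R :=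
  tauG (Function.surjInv ProjGenLinGroup.mk_surjective g)

theorem tauG_scalar (M : GL (Fin 2) R) (u : Rˣ) :
    tauG (M * GeneralLinearGroup.scalar (Fin 2) u) = tauG M := by
  have h1 : (M * GeneralLinearGroup.scalar (Fin 2) u).1 = (u : R) • M.1 := by
    rw [Units.val_mul, GeneralLinearGroup.coe_scalar]
    ext i j
    rw [Matrix.scalar_apply, Matrix.mul_diagonal, Matrix.smul_apply, smul_eq_mul, mul_comm]
  have h2 : (M * GeneralLinearGroup.scalar (Fin 2) u).det = u ^ 2 * M.det := by
    apply Units.ext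
    rw [GeneralLinearGroup.val_det_apply, h1, Matrix.det_smul, Units.val_mul,
      GeneralLinearGroup.val_det_apply, Fintype.card_fin, Units.val_pow_eq_pow_val]
  rw [tauG, tauG, h1, h2, Matrix.trace_smul, smul_eq_mul, mul_inv, Units.val_mul]
  have h3 : ((u ^ 2)⁻¹ : Rˣ) * (u ^ 2 : Rˣ) = 1 := inv_mul_cancel _
  have h4 := congrArg Units.val h3
  rw [Units.val_mul, Units.val_one, Units.val_pow_eq_pow_val] at h4
  calc ((u : R) * M.1.trace) ^ 2 * (((u ^ 2)⁻¹ : Rˣ) * ((M.det⁻¹ : Rˣ) : R))
      = (((u ^ 2)⁻¹ : Rˣ) * (u : R) ^ 2) * (M.1.trace ^ 2 * ((M.det⁻¹ : Rˣ) : R)) := by ring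
    _ = _ := by rw [h4, one_mul]

theorem tau_mk (M : GL (Fin 2) R) : tau (ProjGenLinGroup.mk M) = tauG M := by
  have h1 : ProjGenLinGroup.mk (Function.surjInv ProjGenLinGroup.mk_surjective
      (ProjGenLinGroup.mk M)) = ProjGenLinGroup.mk M :=
    Function.surjInv_eq ProjGenLinGroup.mk_surjective _
  obtain ⟨u, hu⟩ := ProjGenLinGroup.mk_eq_mk_iff.1 h1
  have h2 := tauG_scalar (Function.surjInv ProjGenLinGroup.mk_surjective
    (ProjGenLinGroup.mk M)) u
  rw [hu] at h2
  exact h2.symm

theorem tauG_map {S : Type} [CommRing S] (f : R →+* S) (M : GL (Fin 2) R) :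
    tauG (GeneralLinearGroup.map f M) = f (tauG M) := by
  have h1 : (GeneralLinearGroup.map f M).det = Units.map f.toMonoidHom M.det := by
    apply Units.ext
    rw [GeneralLinearGroup.val_det_apply]
    change (M.1.map f).det = f (M.det : R)
    rw [GeneralLinearGroup.val_det_apply, RingHom.map_det]
    rfl
  have h2 : (GeneralLinearGroup.map f M).1.trace = f M.1.trace := by
    rw [Matrix.trace_fin_two, Matrix.trace_fin_two, map_add]
    rfl
  rw [tauG, tauG, h1, h2, map_mul, map_pow, ← map_inv]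
  rfl

theorem tau_map {S : Type} [CommRing S] (f : R →+* S) (g : ProjGenLinGroup (Fin 2) R) :
    tau (ProjGenLinGroup.map f g) = f (tau g) := by
  induction g using ProjGenLinGroup.induction_on with
  | mk M => rw [ProjGenLinGroup.map_mk, tau_mk, tau_mk, tauG_map]

theorem tauG_sq (M : GL (Fin 2) R) : tauG (M * M) = (tauG M - 2) ^ 2 := by
  have h1 : (M * M).1.trace = M.1.trace ^ 2 - 2 * M.1.det := by
    rw [Units.val_mul, Matrix.trace_fin_two, Matrix.trace_fin_two, Matrix.det_fin_two,
      Matrix.mul_apply, Matrix.mul_apply, Fin.sum_univ_two, Fin.sum_univ_two]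
    ring
  have h3 : M.1.det * ((M.det⁻¹ : Rˣ) : R) = 1 := by
    rw [← GeneralLinearGroup.val_det_apply, ← Units.val_mul, mul_inv_cancel, Units.val_one]
  rw [tauG, tauG, h1, map_mul, mul_inv, Units.val_mul]
  obtain ⟨d, hd⟩ : ∃ d, d = ((M.det⁻¹ : Rˣ) : R) := ⟨_, rfl⟩
  obtain ⟨D, hD⟩ : ∃ D, D = M.1.det := ⟨_, rfl⟩
  obtain ⟨t, ht⟩ : ∃ t, t = M.1.trace := ⟨_, rfl⟩
  rw [← hd, ← hD] at h3
  rw [← hd, ← hD, ← ht]
  linear_combination (-4 * t ^ 2 * d + 4 * (D * d + 1)) * h3

end

/-- One valuation. -/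
theorem hierL_val {L : Type} [Field L] (v : Valuation L ℤᵐ⁰) (hv : ∃ π : L, v π = exp (-1 : ℤ))
    {Γ : Type} [Group Γ] (ρ : Γ →* ProjGenLinGroup (Fin 2) L)
    (h : ∀ S : Subgroup Γ, (∀ s ∈ S, v (tau (ρ s)) ≤ 1) → HierL S) : HierL Γ := by
  obtain ⟨π, hπ⟩ := hv
  let act : MulAction (ProjGenLinGroup (Fin 2) L) (Vt v) :=
    ProjGenLinGroup.mulActionOfGL (by
      intro u x
      obtain ⟨g, rfl⟩ := QuotientGroup.mk_surjective x
      refine vt_eq (scalar_mem_HG u) ?_
      have hc : GeneralLinearGroup.scalar (Fin 2) u ∈ Subgroup.center (GL (Fin 2) L) := by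
        rw [GeneralLinearGroup.center_eq_range_scalar]
        exact ⟨u, rfl⟩
      exact ((Subgroup.mem_center_iff.1 hc) g).symm)
  have hact : ∀ (M : GL (Fin 2) L) (x : Vt v), ProjGenLinGroup.mk M • x = M • x := fun M x => rfl
  let actΓ : MulAction Γ (Vt v) := MulAction.compHom _ ρ
  have hactΓ : ∀ (g : Γ) (x : Vt v), g • x = ρ g • x := fun g x => rfl
  have hne : Nonempty (Vt v) := ⟨vt 1⟩
  refine hierL_par (bpar hπ) (blev hπ) (blev_bpar hπ) (bpar_common hπ) ?_ ?_
  · intro g x y hxy
    rw [bpar_adj] at hxy ⊢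
    rw [hactΓ, hactΓ]
    induction (ρ g) using ProjGenLinGroup.induction_on with
    | mk M =>
      rw [hact, hact]
      exact radj_smul hπ M hxy
  · intro S x hS
    refine h S (fun s hs => ?_)
    have h1 := hS s hs
    rw [hactΓ, hactΓ] at h1
    revert h1
    induction (ρ s) using ProjGenLinGroup.induction_on with
    | mk M =>
      intro h1
      rw [hact, hact] at h1
      rw [tau_mk]
      obtain ⟨g, rfl⟩ := QuotientGroup.mk_surjective x
      have h2 : (vt (M * (M * g)) : Vt v) = vt g := h1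
      obtain ⟨k, hk, h3⟩ := vt_eq_iff.1 h2.symm
      have h4 : M * M = g * k * g⁻¹ := by
        rw [← h3]
        group
      have h5 : v (tauG (M * M)) ≤ 1 := by
        have h6 : tauG (M * M) = k.1.trace ^ 2 * k.1.det⁻¹ := by
          have h7 : (M * M).1.trace = k.1.trace := by
            rw [h4, Units.val_mul, Matrix.trace_mul_comm, ← Units.val_mul]
            congr 2
            group
          have h8 : (M * M).det = k.det := by
            rw [h4, map_mul, map_mul, map_inv]
            rw [mul_comm (g.det) (k.det), mul_assoc, mul_inv_cancel, mul_one]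
          rw [tauG, h7, h8, Units.val_inv_eq_inv_val, GeneralLinearGroup.val_det_apply]
        rw [h6]
        exact HG_trace hk
      rw [tauG_sq, map_pow v] at h5
      have h6 : v (tauG M - 2) ≤ 1 := by
        by_contra h7
        rw [not_le] at h7
        have h8 : 1 < v (tauG M - 2) ^ 2 := one_lt_pow₀ h7 two_ne_zero
        exact absurd h5 (not_le.2 h8)
      have h7 : v (2 : L) ≤ 1 := by
        have : (2 : L) = 1 + 1 := by norm_num
        rw [this]
        refine (v.map_add _ _).trans (max_le ?_ ?_)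
        · rw [map_one v]
        · rw [map_one v]
      have h8 : tauG M = (tauG M - 2) + 2 := by ring
      rw [h8]
      exact (v.map_add _ _).trans (max_le h6 h7)

/-- Finitely many valuations. -/
theorem hierL_vals {ι : Type} (L : ι → Type) [∀ i, Field (L i)] (v : ∀ i, Valuation (L i) ℤᵐ⁰)
    (hv : ∀ i, ∃ π : L i, v i π = exp (-1 : ℤ)) (W : Finset ι) :
    ∀ {Γ : Type} [Group Γ] (ρ : ∀ i, Γ →* ProjGenLinGroup (Fin 2) (L i))
    (_ : ∀ S : Subgroup Γ, (∀ s ∈ S, ∀ i ∈ W, v i (tau (ρ i s)) ≤ 1) → HierL S), HierL Γ := by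
  classical
  induction W using Finset.induction_on with
  | empty =>
    intro Γ _ ρ h
    exact hierL_equiv Subgroup.topEquiv.symm (h ⊤ (fun s _ i hi => absurd hi (Finset.notMem_empty i)))
  | insert a W ha ih =>
    intro Γ _ ρ h
    refine hierL_val (v a) (hv a) (ρ a) (fun S hS => ?_)
    refine ih (fun i => (ρ i).comp S.subtype) (fun T hT => ?_)
    have h1 : HierL (T.map S.subtype) := by
      apply h
      rintro _ ⟨t, ht, rfl⟩ i hi
      rcases Finset.mem_insert.1 hi with rfl | hi
      · exact hS _ t.2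
      · exact hT t ht i hi
    exact hierL_equiv (T.equivMapOfInjective S.subtype S.subtype_injective) h1

end Pool.Agent.GLT
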